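import Mathlib
import Pool.Agent.H.MP_ba200f_al.B

set_option autoImplicit false

namespace Pool.Agent.Results.MP_ba200f_al.Counter

open Pool.Agent.H.MP_ba200f_al

variable {F A M : Type} [Field F] [AddCommGroup A] [Module F A] [AddCommGroup M] [Module F M]

/-- simple unital dot-bracket superalgebra with nonzero Jordan bracket -/
def Good (σ : A →ₗ[F] A) (d b : A →ₗ[F] A →ₗ[F] A) (one : A) : Prop :=
  IsDB F σ (d · ·) (b · ·) ∧ IsJordan F (kanP σ) (kan σ (d · ·) (b · ·)) ∧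
    (∀ a, d one a = a) ∧ (∃ a a', b a a' ≠ 0) ∧
    ∀ I : Submodule F A, (∀ a, ∀ x ∈ I, d a x ∈ I ∧ b a x ∈ I) → I = ⊥ ∨ I = ⊤

/-- unital irreducible Jordan supermodule over the Kantor double -/
def Irr (σ : A → A) (d b : A → A → A) (one : A) (τ : M →ₗ[F] M) (L : A × A →ₗ[F] M →ₗ[F] M)
    (R : M →ₗ[F] A × A →ₗ[F] M) : Prop :=
  IsJordan F (Prod.map (kanP σ) τ) (ext (kan σ d b) (L · ·) (R · ·)) ∧
    (∀ m, L (one, 0) m = m) ∧ Nontrivial M ∧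
    ∀ N : Submodule F M, (∀ j, ∀ m ∈ N, L j m ∈ N) → N = ⊥ ∨ N = ⊤

variable (F) in
/-- `M` is isomorphic to the double of some dot-bracket supermodule -/
def IsKan (σ : A → A) (d b : A → A → A) (L : A × A → M → M) : Prop :=
  ∃ (V : Type) (_ : AddCommGroup V) (_ : Module F V) (ρ : V →ₗ[F] V) (l bl : A →ₗ[F] V →ₗ[F] V)
    (r br : V →ₗ[F] A →ₗ[F] V),
    IsDB F (Prod.map σ ρ) (ext d (l · ·) (r · ·)) (ext b (bl · ·) (br · ·)) ∧
    ∃ φ : M ≃ₗ[F] V × V, ∀ j m, φ (L j m) = kan ρ (l · ·) (bl · ·) j (φ m)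

theorem result (F : Type) [Field F] (h2 : (2 : F) ≠ 0) :
    ∃ (A : Type) (_ : AddCommGroup A) (_ : Module F A) (σ : A →ₗ[F] A) (d b : A →ₗ[F] A →ₗ[F] A)
      (one : A), Good σ d b one ∧
      ∃ (M : Type) (_ : AddCommGroup M) (_ : Module F M) (τ : M →ₗ[F] M)
        (L : A × A →ₗ[F] M →ₗ[F] M) (R : M →ₗ[F] A × A →ₗ[F] M),
        Irr σ (d · ·) (b · ·) one τ L R ∧ ¬ IsKan F σ (d · ·) (b · ·) (L · ·) := by
  let σ : F × F →ₗ[F] F × F := LinearMap.id.prodMap (-LinearMap.id)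
  refine ⟨F × F, inferInstance, inferInstance, σ, dL, bL, (1, 0), ⟨db h2, jor0 h2,
    fun a => (by simp [d0] : d0 (1, 0) a = a), ⟨(0, 1), (0, 1), (by simp [b0] : b0 _ _ ≠ 0)⟩,
    simple⟩, F × F, inferInstance, inferInstance, σ, LL, RL, ⟨jor h2,
    fun m => (by simp [L0] : L0 ((1, 0), 0) m = m), inferInstance, irr⟩,
    fun ⟨V, _, _, ρ, l, bl, r, br, h, φ, hφ⟩ => ?_⟩
  have h1 : ∀ v, l (0, 1) (l (0, 1) v) = 0 := fun v => by
    simpa [ext, dL, d0, Prod.mk_zero_zero] using (congrArg Prod.snd (h.2.1 ((0, 1), 0) ((0, 1), 0) (0, v))).symm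
  have h3 := hφ ((0, 1), 0) (L0 ((0, 1), 0) (1, 0))
  have h4 := hφ ((0, 1), 0) (1, 0)
  simp only [LL, LinearMap.mk₂_apply] at h3 h4
  rw [h4] at h3
  simp [kan, h1, L0, Prod.mk_zero_zero] at h3

end Pool.Agent.Results.MP_ba200f_al.Counter
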